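import Pool.Agent.helper40.FI3.SpecLA3

set_option autoImplicit false

/-! FI3, row LRP3: representatives of the characters of `Y` over a character of `Z`. -/

namespace Pool.Agent.FI3

open Finset Pool.Agent.GR Pool.Agent.FI

theorem LRP3_rs {D : Type} [CommGroup D] {Y : Subgroup D} {l m : D →* ℂˣ} :
    l.comp Y.subtype = m.comp Y.subtype ↔ ∀ y ∈ Y, lv l y = lv m y := by
  constructor
  · intro h y hy
    have h1 := congrArg (fun f : Y →* ℂˣ => ((f ⟨y, hy⟩ : ℂˣ) : ℂ)) h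
    exact h1
  · intro h
    refine MonoidHom.ext fun y => Units.ext ?_
    exact h y y.2

theorem LRP3 (hLFE3 : LFE3_stmt) : LRP3_stmt := by
  classical
  intro p D _ _ _ X _ Z Y I g l₀ hG
  have hE : ∀ v ∈ (ov Z l₀).image (fun l : D →* ℂˣ => l.comp Y.subtype),
      ∃ m : D →* ℂˣ, LFx I m ∧ m.comp Y.subtype = v := by
    intro v hv
    obtain ⟨l, _, rfl⟩ := mem_image.1 hv
    obtain ⟨m, hm1, hm2⟩ := hLFE3 p D Y I l hG.pr hG.pg hG.cop hG.fz
    exact ⟨m, hm1, LRP3_rs.2 hm2⟩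
  choose! R hR1 hR2 using hE
  set V := (ov Z l₀).image (fun l : D →* ℂˣ => l.comp Y.subtype) with hV
  have hinj : Set.InjOn R (V : Set (Y →* ℂˣ)) := by
    intro v hv v' hv' h
    rw [← hR2 v hv, ← hR2 v' hv', h]
  refine ⟨V.image R, ?_, ?_, ?_, ?_, ?_⟩
  · intro m hm
    obtain ⟨v, hv, rfl⟩ := mem_image.1 hm
    exact hR1 v hv
  · intro m hm
    obtain ⟨v, hv, rfl⟩ := mem_image.1 hm
    obtain ⟨l, hl, hlv⟩ := mem_image.1 hv
    have h1 := LRP3_rs.1 ((hR2 v hv).trans hlv.symm)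
    rw [mem_ov] at hl ⊢
    intro z hz
    rw [h1 z (hG.zy hz), hl z hz]
  · intro l hl
    have hv : l.comp Y.subtype ∈ V := mem_image_of_mem _ hl
    refine ⟨R (l.comp Y.subtype), mem_image_of_mem _ hv, ?_⟩
    rw [mem_ov]
    exact LRP3_rs.1 (hR2 _ hv).symm
  · intro m hm m' hm' h
    obtain ⟨v, hv, rfl⟩ := mem_image.1 hm
    obtain ⟨v', hv', rfl⟩ := mem_image.1 hm'
    have h1 := LRP3_rs.2 h
    rw [hR2 v hv, hR2 v' hv'] at h1
    rw [h1]
  · rw [card_image_of_injOn hinj]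
    have h1 := card_eq_sum_card_image (fun l : D →* ℂˣ => l.comp Y.subtype) (ov Z l₀)
    have h2 : ∀ v ∈ V, ((ov Z l₀).filter fun l : D →* ℂˣ => l.comp Y.subtype = v).card = Y.index := by
      intro v hv
      rw [← card_ov Y (R v)]
      congr 1
      ext l
      rw [mem_filter, mem_ov]
      constructor
      · rintro ⟨_, h3⟩
        rw [mem_ov]
        exact LRP3_rs.1 (h3.trans (hR2 v hv).symm)
      · intro h3
        rw [mem_ov] at h3
        have h4 : l.comp Y.subtype = v := (LRP3_rs.2 h3).trans (hR2 v hv)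
        refine ⟨?_, h4⟩
        obtain ⟨l', hl', hlv⟩ := mem_image.1 hv
        have h5 := LRP3_rs.1 (h4.trans hlv.symm)
        rw [mem_ov] at hl'
        intro z hz
        rw [h5 z (hG.zy hz), hl' z hz]
    rw [← hV, sum_congr rfl h2, sum_const, card_ov, smul_eq_mul] at h1
    have h3 : Z.relIndex Y * Y.index = Z.index := Subgroup.relIndex_mul_index hG.zy
    have h4 : Y.index ≠ 0 := Subgroup.FiniteIndex.index_ne_zero
    have h5 : V.card * Y.index = Z.relIndex Y * Y.index := by rw [← h1, h3]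
    exact Nat.eq_of_mul_eq_mul_right (Nat.pos_of_ne_zero h4) h5

end Pool.Agent.FI3
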